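import Mathlib

namespace Pool.Agent.H.MP_e84edf_an
open MeasureTheory ComplexConjugate AddCircle Matrix
open scoped ENNReal InnerProductSpace

abbrev T := AddCircle (1 : ℝ)
noncomputable abbrev μ : Measure T := haarAddCircle
abbrev V := EuclideanSpace ℂ (Fin 2)
noncomputable abbrev L := Lp V 2 μ

def Sn : Set L := {f | ∃ k : ℤ, k < 0 ∧ ∃ v : V, f =ᵐ[μ] fun x => fourier k x • v}

noncomputable abbrev Hd : Submodule ℂ L := (Submodule.span ℂ Sn)ᗮ

noncomputable def M (Φ : C(T, V →L[ℂ] V)) : L →L[ℂ] L :=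
  (ContinuousLinearMap.id ℂ (V →L[ℂ] V)).holderL μ ⊤ 2 2 ((Φ.memLp μ ℂ (p := ⊤)).toLp Φ)

lemma M_ae (Φ : C(T, V →L[ℂ] V)) (f : L) : M Φ f =ᵐ[μ] fun x => Φ x (f x) := by
  refine ((ContinuousLinearMap.id ℂ (V →L[ℂ] V)).coeFn_holder (r := 2) _ f).trans ?_
  filter_upwards [(Φ.memLp μ ℂ (p := ⊤)).coeFn_toLp] with x hx
  rw [hx]; rfl

lemma M_mul (Φ Ψ : C(T, V →L[ℂ] V)) : M (Φ * Ψ) = M Φ * M Ψ := by
  ext1 f
  refine Lp.ext ?_
  filter_upwards [M_ae (Φ * Ψ) f, M_ae Φ (M Ψ f), M_ae Ψ f] with x h1 h2 h3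
  rw [h1, ContinuousLinearMap.mul_apply, h2, h3]; rfl

lemma M_add (Φ Ψ : C(T, V →L[ℂ] V)) : M (Φ + Ψ) = M Φ + M Ψ := by
  ext1 f
  refine Lp.ext ?_
  filter_upwards [M_ae (Φ + Ψ) f, M_ae Φ f, M_ae Ψ f, Lp.coeFn_add (M Φ f) (M Ψ f)] with x h1 h2 h3 h4
  refine h1.trans (Eq.trans ?_ h4.symm)
  rw [Pi.add_apply, h2, h3]; rfl

lemma M_zero : M 0 = 0 := by simpa using M_add 0 0

lemma M_adj (Φ : C(T, V →L[ℂ] V)) (f g : L) : ⟪M (star Φ) f, g⟫_ℂ = ⟪f, M Φ g⟫_ℂ := by
  rw [L2.inner_def, L2.inner_def]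
  refine integral_congr_ae ?_
  filter_upwards [M_ae (star Φ) f, M_ae Φ g] with x h1 h2
  rw [h1, h2]
  exact ContinuousLinearMap.adjoint_inner_left _ _ _

lemma M_star (Φ : C(T, V →L[ℂ] V)) : M (star Φ) = star (M Φ) :=
  (ContinuousLinearMap.eq_adjoint_iff _ _).2 (M_adj Φ)

noncomputable def E (i : Fin 2) : V →L[ℂ] V := toEuclideanCLM (𝕜 := ℂ) (single i i (1 : ℂ))

noncomputable def F (k : ℤ) (i : Fin 2) : C(T, V →L[ℂ] V) :=
  ⟨fun x => fourier k x • E i, by fun_prop⟩

lemma F_star (k : ℤ) (i : Fin 2) : star (F k i) = F (-k) i := by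
  ext1 x
  change star (fourier k x • E i) = fourier (-k) x • E i
  rw [star_smul, fourier_neg, E, ← map_star (toEuclideanCLM (𝕜 := ℂ) (n := Fin 2))]
  simp [star_eq_conjTranspose]

lemma F_mul (k l : ℤ) (i j : Fin 2) : F k i * F l j = if i = j then F (k + l) i else 0 := by
  ext1 x
  change fourier k x • E i * fourier l x • E j = _
  rw [smul_mul_smul_comm, E, E, ← map_mul]
  split_ifs with h
  · subst h; rw [single_mul_single_same, mul_one, ← fourier_add]; rfl
  · rw [single_mul_single_of_ne _ _ _ _ h, map_zero]; ext; simp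

lemma F_mem {k : ℤ} (hk : 0 ≤ k) (i : Fin 2) {f : L} (hf : f ∈ Hd) : M (F k i) f ∈ Hd := by
  refine (Submodule.mem_orthogonal _ _).2 fun u hu => ?_
  rw [← M_adj]
  refine Submodule.inner_right_of_mem_orthogonal ?_ hf
  refine (Submodule.span_le (p := (Submodule.span ℂ Sn).comap (M (star (F k i))).toLinearMap)).2 ?_ hu
  rintro u ⟨l, hl, v, hv⟩
  refine Submodule.subset_span ⟨-k + l, by omega, E i v, ?_⟩
  filter_upwards [M_ae (star (F k i)) u, hv] with x h1 h2
  refine h1.trans ?_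
  rw [h2, F_star, fourier_add, mul_comm, mul_smul]
  simp [F]

noncomputable def P : L →L[ℂ] L := Hd.starProjection

lemma P_comm (i : Fin 2) : M (F 0 i) * P = P * M (F 0 i) := by
  ext1 f
  refine (Submodule.eq_starProjection_of_mem_of_inner_eq_zero
    (F_mem le_rfl i (Hd.starProjection_apply_mem f)) fun w hw => ?_).symm
  have := M_adj (F 0 i) (f - P f) w
  rw [F_star, neg_zero, map_sub] at this
  exact this.trans (Submodule.starProjection_inner_eq_zero f _ (F_mem le_rfl i hw))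

noncomputable def Φ : C(T, V →L[ℂ] V) := F 1 0 + (F 1 1 + F (-1) 1)

noncomputable def Tp : Hd →L[ℂ] Hd := Hd.orthogonalProjectionOnto ∘L M Φ ∘L Hd.subtypeL

lemma Tp_inner (f g : Hd) : ⟪g, Tp f⟫_ℂ = ⟪(g : L), M Φ f⟫_ℂ :=
  Submodule.inner_orthogonalProjectionOnto_eq_of_mem_left g _

noncomputable def N : L →L[ℂ] L := M (F 1 0) + P * M (F 1 1 + F (-1) 1) * P

lemma N_normal : IsStarNormal N := by
  have hP : star P = P := isSelfAdjoint_starProjection Hd
  set C := F 1 1 + F (-1) 1 with hC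
  have h1 : star C = C := by rw [hC, star_add, F_star, F_star, neg_neg, add_comm]
  have h2 : ∀ k, M (F k 0) * (P * M C * P) = 0 := fun k => by
    have : F k 0 = F k 0 * F 0 0 := by simp [F_mul]
    have e : M (F 0 0) * M C = 0 := by
      rw [hC, M_add, mul_add, ← M_mul, ← M_mul]; simp [F_mul, M_zero]
    rw [this, M_mul, mul_assoc, mul_assoc P, ← mul_assoc _ P, P_comm, mul_assoc P, ← mul_assoc _ (M C),
      e]
    simp
  have h3 : star (P * M C * P) = P * M C * P := by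
    rw [star_mul, star_mul, hP, ← M_star, h1, mul_assoc]
  have h4 : ∀ k, (P * M C * P) * M (F k 0) = 0 := fun k => by
    have := congrArg star (h2 (-k))
    rwa [star_mul, h3, ← M_star, F_star, neg_neg, star_zero] at this
  constructor
  have h5 : M (F (-1) 0) * M (F 1 0) = M (F 1 0) * M (F (-1) 0) := by
    rw [← M_mul, ← M_mul, F_mul, F_mul]; rfl
  rw [N, ← hC, star_add, h3, ← M_star, F_star]
  generalize P * M C * P = Q at *
  exact (Commute.add_right h5 ((h2 _).trans (h4 _).symm)).add_left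
    (Commute.add_right ((h4 _).trans (h2 _).symm) rfl)

lemma N_ext (f : Hd) : N f = Tp f := by
  have h1 : P f = f := Submodule.starProjection_eq_self_iff.2 f.2
  have h2 : P (M (F 1 0) f) = M (F 1 0) f :=
    Submodule.starProjection_eq_self_iff.2 (F_mem zero_le_one 0 f.2)
  change _ = P (M Φ f)
  rw [Φ, M_add (F 1 0), _root_.add_apply, map_add, h2]
  simp [N, h1]

noncomputable def u (k : ℤ) : L := (ContinuousMap.memLp μ ℂ (p := 2)
  (⟨fun x => fourier k x • EuclideanSpace.single 0 1, by fun_prop⟩ : C(T, V))).toLp _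

lemma u_ae (k : ℤ) : u k =ᵐ[μ] fun x => fourier k x • EuclideanSpace.single 0 1 :=
  MemLp.coeFn_toLp _

lemma M_u (k l : ℤ) (i : Fin 2) : M (F k i) (u l) = if i = 0 then u (k + l) else 0 := by
  refine Lp.ext ?_
  filter_upwards [M_ae (F k i) (u l), u_ae l, u_ae (k + l), Lp.coeFn_zero V 2 μ] with x h1 h2 h3 h4
  rw [h1, h2]
  split_ifs with h
  · subst h
    rw [h3, fourier_add, mul_comm, mul_smul]
    ext j; fin_cases j <;> simp [F, E]
  · rw [h4]
    fin_cases i
    · exact absurd rfl h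
    · ext j; fin_cases j <;> simp [F, E]

lemma u_mem : u 0 ∈ Hd := by
  refine (Submodule.mem_orthogonal _ _).2 fun w hw => ?_
  refine (Submodule.span_le (p := (ℂ ∙ u 0)ᗮ)).2 ?_ hw |> Submodule.mem_orthogonal_singleton_iff_inner_left.1
  rintro w ⟨l, hl, v, hv⟩
  refine Submodule.mem_orthogonal_singleton_iff_inner_left.2 ?_
  rw [L2.inner_def, integral_congr_ae (g := fun x => fourier (-l) x *
    ⟪v, EuclideanSpace.single 0 1⟫_ℂ)]
  · have := congrFun (fourierCoeff_fourier (T := 1) 0) l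
    rw [fourierCoeff, Pi.single_eq_of_ne hl.ne] at this
    simp only [fourier_zero, smul_eq_mul, mul_one] at this
    rw [integral_mul_const, this, zero_mul]
  · filter_upwards [hv, u_ae 0] with x h1 h2
    rw [h1, h2, inner_smul_left, fourier_zero, one_smul, fourier_neg]

lemma u_ne (k : ℤ) : u k ≠ 0 := fun h => by
  have h1 := u_ae k
  rw [h] at h1
  obtain ⟨x, hx⟩ := ((Lp.coeFn_zero V 2 μ).symm.trans h1).exists
  have := congrArg norm hx
  simp [norm_smul] at this

lemma not_normal : ¬ IsStarNormal Tp := fun h => by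
  have h1 := ContinuousLinearMap.isStarNormal_iff_norm_eq_adjoint.1 h ⟨u 0, u_mem⟩
  have h2 : ContinuousLinearMap.adjoint Tp ⟨u 0, u_mem⟩ = 0 := by
    refine ext_inner_right ℂ fun g => ?_
    rw [ContinuousLinearMap.adjoint_inner_left, Tp_inner, ← M_adj, inner_zero_left]
    refine Submodule.inner_right_of_mem_orthogonal (Submodule.subset_span (s := Sn)
      ⟨-1, by norm_num, EuclideanSpace.single 0 1, ?_⟩) g.2
    simp only [Φ, star_add, F_star, M_add, _root_.add_apply, M_u]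
    simpa using u_ae (-1)
  rw [h2, norm_zero, norm_eq_zero] at h1
  have h3 := N_ext ⟨u 0, u_mem⟩
  have h4 : P (u 0) = u 0 := Submodule.starProjection_eq_self_iff.2 u_mem
  rw [h1] at h3
  simp [N, h4, M_add, M_u] at h3
  exact u_ne 1 h3

noncomputable def Ph (x : T) : Matrix (Fin 2) (Fin 2) ℂ :=
  !![fourier 1 x, 0; 0, fourier 1 x + fourier (-1) x]

lemma toep (f g : Hd) : ⟪g, Tp f⟫_ℂ = ∫ x, ⟪(g : L) x, toEuclideanLin (Ph x) ((f : L) x)⟫_ℂ ∂μ := by
  rw [Tp_inner, L2.inner_def]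
  refine integral_congr_ae ?_
  filter_upwards [M_ae Φ f] with x h1
  rw [h1]
  congr 1
  ext j; fin_cases j <;> simp [Φ, F, E, Ph, toLpLin_apply, add_mul, vecHead, vecTail]

lemma Ph_bd (i j : Fin 2) : MemLp (fun x => Ph x i j) ⊤ μ :=
  ContinuousMap.memLp μ ℂ ⟨_, by fin_cases i <;> fin_cases j <;> simp [Ph] <;> fun_prop⟩

lemma Ph_coeff : fourierCoeff (fun x => Ph x 1 1) (-1) ≠ 0 := by
  have h1 := congrFun (fourierCoeff_fourier (T := 1) 1) (-1)
  have h2 := congrFun (fourierCoeff_fourier (T := 1) (-1)) (-1)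
  have : (fun x => Ph x 1 1) = ⇑(fourier 1) + ⇑(fourier (-1)) := rfl
  rw [this, fourierCoeff.add ((fourier 1).continuous.integrable_of_hasCompactSupport
    (.of_compactSpace _)) ((fourier (-1)).continuous.integrable_of_hasCompactSupport
    (.of_compactSpace _)), Pi.add_apply, h1, h2]
  simp

end Pool.Agent.H.MP_e84edf_an
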